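import Pool.Agent.Helper75.LR.Mah

/-!
MP_6358c9_nt (Laurent-Roy), module LR-BEZ: arithmetic Bezout.
-/

open MvPolynomial Real
open Pool.Agent.Helper21.LR

namespace Pool.Agent.Helper75.LRBez

open Pool.Agent.Helper75.LRMah

lemma deg_le_sz {ι : Type} (F : MvPolynomial ι ℤ) : (F.totalDegree : ℝ) ≤ sz F := by
  unfold sz
  have := Real.log_natCast_nonneg (ht F)
  linarith

lemma card_le {m r : ℕ} (h : r + 1 ≤ m) :
    (Fintype.card (Fin (r+1) × Fin (m+1)) : ℝ) ≤ ((m : ℝ) + 1) ^ 2 := by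
  simp only [Fintype.card_prod, Fintype.card_fin]
  have h1 : (r + 1) * (m + 1) ≤ (m + 1) ^ 2 := by nlinarith
  exact_mod_cast h1

lemma card_le' {m r : ℕ} (h : r + 1 ≤ m) :
    (Fintype.card (Fin (r+1) × Fin m) : ℝ) ≤ ((m : ℝ) + 1) ^ 2 := by
  simp only [Fintype.card_prod, Fintype.card_fin]
  have h1 : (r + 1) * m ≤ (m + 1) ^ 2 := by nlinarith
  exact_mod_cast h1

/-- size of the resultant -/
lemma wt_g (hZ : SSize) (hz : SSz) (m : ℕ) : ∃ C : ℝ, 1 ≤ C ∧ ∀ (r : ℕ) (ξ : Fin m → ℂ)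
    (F : MvPolynomial (Fin (r+1+1) × Fin (m+1)) ℤ), IsVar (r+1) ξ F → ∀ (S : Split (r+1) ξ F)
    (N : ℕ) (Q : MvPolynomial (Fin m) ℤ) (G : MvPolynomial (Fin m) ℂ), 1 ≤ N → Rep ξ N Q G →
    len G ≤ Real.exp N → aeval ξ Q ≠ 0 →
    ∀ (μ : MvPolynomial (Fin (r+1) × Fin (m+1)) ℂ → ℝ), Mah μ →
    S.g Q N ≠ 0 ∧ wt μ (S.g Q N) ≤ C * N * sz F := by
  obtain ⟨C, hC1, hC⟩ := hZ m
  refine ⟨2 * C + 1, by linarith, fun r ξ F hF S N Q G hN hR hG hQ μ hμ => ?_⟩
  have hg : S.g Q N ≠ 0 := S.g_ne Q N hR.1 hQ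
  refine ⟨hg, ?_⟩
  obtain ⟨h1, h2⟩ := hC (r+1) ξ F hF S N Q G hN hR
  obtain ⟨-, -, hs⟩ := hz m (r+1) ξ F hF
  have hN' : (1:ℝ) ≤ N := by exact_mod_cast hN
  have hδ : (S.δ : ℝ) ≤ sz F := by
    refine le_trans ?_ (deg_le_sz F)
    rw [S.δ_eq]
    exact_mod_cast degreeOf_le_totalDegree F _
  have hlen0 : 0 ≤ len G := Finset.sum_nonneg fun _ _ => norm_nonneg _
  have h3 : μ (zc (S.g Q N)) ≤ Real.log (Real.exp (N * sz F + C * N * sz F)) := by
    apply hμ.le _ (zc_ne hg) _ (Real.exp_pos _)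
    intro z hz'
    rw [eval_zc]
    refine (h2 z hz').trans ?_
    rw [Real.exp_add]
    apply mul_le_mul_of_nonneg_right _ (Real.exp_pos _).le
    calc (len G) ^ S.δ ≤ (Real.exp N) ^ S.δ := pow_le_pow_left₀ hlen0 hG _
      _ = Real.exp (S.δ * N) := by rw [← Real.exp_nat_mul]
      _ ≤ Real.exp (N * sz F) := by
          apply Real.exp_le_exp.2
          rw [mul_comm]
          exact mul_le_mul_of_nonneg_left hδ (by linarith)
  rw [Real.log_exp] at h3
  unfold wt
  nlinarith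

/-- **LR-BEZ**, sizes -/
theorem bez1 (hM : SMahler) (hS : SSplit) (hC : SCover) (hZ : SSize) (hz : SSz) : SBez1 := by
  intro m
  obtain ⟨C, hC1, hw⟩ := wt_g hZ hz m
  have hm : (0:ℝ) ≤ ((m : ℝ) + 1) ^ 2 := by positivity
  refine ⟨(1 + ((m : ℝ) + 1) ^ 2) * C, by nlinarith, ?_⟩
  intro r ξ F hF N Q G hN hR hG hQ η hη hηQ
  obtain ⟨S⟩ := hS m (r+1) ξ F hF
  obtain ⟨μ, hμ⟩ := exists_mah hM (Fin (r+1) × Fin (m+1))
  obtain ⟨hg, h1⟩ := hw r ξ F hF S N Q G hN hR hG hQ μ hμ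
  obtain ⟨P, η', hPi, hPg, hV, h2, -, h3⟩ := hC m r ξ F hF S Q N hR.1 hQ η hη hηQ
  obtain ⟨hrm, -, -⟩ := hz m (r+1) ξ F hF
  refine ⟨η', P, hV, h2, h3, ?_⟩
  have h4 := sz_le hμ hPi.ne_zero _ (card_le hrm)
  have h5 := wt_dvd hμ hg hPg
  calc sz P ≤ (1 + ((m : ℝ) + 1) ^ 2) * wt μ P := h4
    _ ≤ (1 + ((m : ℝ) + 1) ^ 2) * (C * N * sz F) :=
        mul_le_mul_of_nonneg_left (h5.trans h1) (by linarith)
    _ = _ := by ring

lemma aeval_thr {m r : ℕ} (θ : Fin m → ℂ) (P : MvPolynomial (Fin r × Fin (m+1)) ℤ)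
    (u : Fin r × Fin m → ℂ) : aeval (thr θ u) P = eval u (genSub r θ P) := by
  have h : (fun x => aeval (thr θ u) x) = fun x => eval u (genSub r θ x) := by
    have h1 : (aeval (thr θ u) : MvPolynomial (Fin r × Fin (m+1)) ℤ →ₐ[ℤ] ℂ) =
        ((aeval u : MvPolynomial (Fin r × Fin m) ℂ →ₐ[ℂ] ℂ).restrictScalars ℤ).comp
          (genSub r θ) := by
      apply MvPolynomial.algHom_ext
      rintro ⟨i, j⟩
      refine Fin.cases ?_ (fun j => ?_) j
      · simp [thr, genSub, mul_comm]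
      · simp [thr, genSub]
    funext x
    rw [h1]
    simp [aeval_eq_eval]
  exact congrFun h P

lemma genSub_degree {m r : ℕ} (θ : Fin m → ℂ) (P : MvPolynomial (Fin r × Fin (m+1)) ℤ) :
    (genSub r θ P).totalDegree ≤ P.totalDegree := by
  unfold genSub
  apply totalDegree_aeval_le
  rintro ⟨i, j⟩
  refine Fin.cases ?_ (fun j => ?_) j
  · simp only [Fin.cases_zero]
    rw [totalDegree_neg]
    refine totalDegree_finsetSum_le fun j _ => ?_
    refine (totalDegree_mul _ _).trans ?_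
    simp
  · simp

lemma genSub_rename {m r : ℕ} (θ : Fin m → ℂ) (P : MvPolynomial (Fin r × Fin m) ℤ) :
    genSub r θ (rename (fun ij : Fin r × Fin m => (ij.1, ij.2.succ)) P) = zc P := by
  unfold genSub zc
  rw [aeval_rename]
  have h : ((fun ij : Fin r × Fin (m+1) => Fin.cases (motive := fun _ => MvPolynomial (Fin r × Fin m) ℂ)
      (-∑ j, C (θ j) * X (ij.1, j)) (fun j => X (ij.1, j)) ij.2) ∘
      fun ij : Fin r × Fin m => (ij.1, ij.2.succ)) = X := by
    funext ij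
    simp
  rw [h]
  have h2 : ((aeval X : MvPolynomial (Fin r × Fin m) ℤ →ₐ[ℤ] MvPolynomial (Fin r × Fin m) ℂ) :
      MvPolynomial (Fin r × Fin m) ℤ →+* MvPolynomial (Fin r × Fin m) ℂ) =
      map (Int.castRingHom ℂ) := by
    apply MvPolynomial.ringHom_ext
    · intro n
      simp
    · intro i
      simp
  exact congrFun (congrArg DFunLike.coe h2) P

/-- **LR-BEZ**, closeness -/
theorem bez2 (hM : SMahler) (hS : SSplit) (hF : SFactor) (hZ : SSize) (hV : SVal) (hz : SSz) :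
    SBez2 := by
  intro m θ
  obtain ⟨C3, hC3, hw⟩ := wt_g hZ hz m
  obtain ⟨C2, hC2, hv⟩ := hV m θ
  set M : ℝ := ((m : ℝ) + 1) ^ 2 with hMdef
  have hM0 : (0:ℝ) ≤ M := by positivity
  set C : ℝ := 8 * C3 * (1 + M) + 16 * M * C3 + 2 * C2 with hCdef
  have hC0 : 8 * C3 * (1 + M) ≤ C := by
    rw [hCdef]; nlinarith [mul_nonneg hM0 (by linarith : (0:ℝ) ≤ C3)]
  have hC01 : 16 * M * C3 ≤ C := by
    rw [hCdef]; nlinarith [mul_nonneg hM0 (by linarith : (0:ℝ) ≤ C3)]
  have hC02 : 2 * C2 ≤ C := by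
    rw [hCdef]; nlinarith [mul_nonneg hM0 (by linarith : (0:ℝ) ≤ C3)]
  have hC03 : 8 * C3 ≤ C := by nlinarith [mul_nonneg hM0 (by linarith : (0:ℝ) ≤ C3)]
  have hCpos : 1 ≤ C := by linarith
  refine ⟨C, hCpos, ?_⟩
  intro r ξ F hFv N Q G hN hR hG hQ B hCB hVal hdich
  obtain ⟨S⟩ := hS m (r+1) ξ F hFv
  obtain ⟨μ, hμ⟩ := exists_mah hM (Fin (r+1) × Fin (m+1))
  obtain ⟨ν, hν⟩ := exists_mah hM (Fin (r+1) × Fin m)
  obtain ⟨hg, hwg⟩ := hw r ξ F hFv S N Q G hN hR hG hQ μ hμ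
  obtain ⟨hrm, -, hszF⟩ := hz m (r+1) ξ F hFv
  have hN' : (1:ℝ) ≤ N := by exact_mod_cast hN
  have hNs : 1 ≤ N * sz F := by nlinarith
  have hval := hv (r+1) ξ F hFv S N Q G hN hR hG B hVal hdich
  set β : ℝ := B / (N * sz F) with hβ
  have hNs0 : 0 < N * sz F := by linarith
  have hBβ : B = β * (N * sz F) := by rw [hβ]; field_simp
  have hβC : C ≤ β := by
    rw [hβ, le_div_iff₀ hNs0]
    linarith
  have hβ0 : 0 < β := by linarith
  -- every irreducible factor is small in size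
  have hszP : ∀ P, Irreducible P → P ∣ S.g Q N → sz P ≤ C * N * sz F := by
    intro P hPi hPg
    have h4 := sz_le hμ hPi.ne_zero _ (card_le hrm)
    have h5 := wt_dvd hμ hg hPg
    calc sz P ≤ (1 + M) * wt μ P := h4
      _ ≤ (1 + M) * (C3 * N * sz F) := mul_le_mul_of_nonneg_left (h5.trans hwg) (by linarith)
      _ = ((1 + M) * C3) * (N * sz F) := by ring
      _ ≤ C * (N * sz F) := by
          apply mul_le_mul_of_nonneg_right _ hNs0.le
          nlinarith [mul_nonneg hM0 (by linarith : (0:ℝ) ≤ C3)]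
      _ = C * N * sz F := by ring
  by_contra hcon
  push Not at hcon
  -- closeness fails for all Chow factors
  have key : ∀ P, Irreducible P → P ∣ S.g Q N → genSub (r+1) θ P ≠ 0 ∧
      -ν (genSub (r+1) θ P) ≤ β / (4 * C3) * wt μ P := by
    intro P hPi hPg
    rcases hF m r ξ F hFv S Q N hR.1 hQ P hPi hPg with ⟨P', rfl⟩ | ⟨η, hη, h1, h2⟩
    · have hP' : P' ≠ 0 := by
        rintro rfl
        exact hPi.ne_zero (map_zero _)
      rw [genSub_rename]
      refine ⟨zc_ne hP', ?_⟩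
      have h3 := zc_nonneg hν hP'
      have h4 : 0 ≤ β / (4 * C3) * wt μ (rename (fun ij : Fin (r+1) × Fin m =>
          (ij.1, ij.2.succ)) P') :=
        mul_nonneg (div_nonneg hβ0.le (by linarith)) (wt_nonneg hμ hPi.ne_zero)
      linarith
    · have hnot := hcon η P hη h1 (hszP P hPi hPg)
      have hne : genSub (r+1) θ P ≠ 0 := by
        intro h0
        apply hnot
        intro u _
        rw [aeval_thr, h0]
        simp only [map_zero, norm_zero]
        exact (Real.exp_pos _).le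
      refine ⟨hne, ?_⟩
      by_contra hlt
      push Not at hlt
      apply hnot
      intro u hu
      rw [aeval_thr]
      refine (norm_eval_le hν _ P.totalDegree (genSub_degree θ P) M (card_le' hrm) u hu).trans ?_
      apply Real.exp_le_exp.2
      have h4 := sz_le hμ hPi.ne_zero _ (card_le hrm)
      have h5 := deg_le_wt hμ hPi.ne_zero
      have h6 := wt_nonneg hμ hPi.ne_zero
      have h7 : B / (C * N * sz F) = β / C := by
        rw [hβ]
        field_simp
      rw [h7]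
      have h8 : β / C * sz P ≤ β / (8 * C3) * wt μ P := by
        calc β / C * sz P ≤ β / C * ((1 + M) * wt μ P) :=
              mul_le_mul_of_nonneg_left h4 (by positivity)
          _ = β * ((1 + M) / C) * wt μ P := by ring
          _ ≤ β * (1 / (8 * C3)) * wt μ P := by
              apply mul_le_mul_of_nonneg_right _ h6
              apply mul_le_mul_of_nonneg_left _ hβ0.le
              rw [div_le_div_iff₀ (by linarith) (by linarith)]
              linarith
          _ = β / (8 * C3) * wt μ P := by ring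
      have h9 : 2 * M * P.totalDegree ≤ β / (8 * C3) * wt μ P := by
        calc 2 * M * (P.totalDegree : ℝ) ≤ 2 * M * wt μ P :=
              mul_le_mul_of_nonneg_left h5 (by positivity)
          _ ≤ β / (8 * C3) * wt μ P := by
              apply mul_le_mul_of_nonneg_right _ h6
              rw [le_div_iff₀ (by linarith)]
              linarith
      have h10 : β / (4 * C3) * wt μ P = β / (8 * C3) * wt μ P + β / (8 * C3) * wt μ P := by
        field_simp
        ring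
      linarith
  obtain ⟨hg0, hgle⟩ := factor_le hμ hν (genSub (r+1) θ) (β / (4 * C3)) (by positivity)
    (S.g Q N) hg key
  have h1 : ν (genSub (r+1) θ (S.g Q N)) ≤ Real.log (Real.exp (-(B - C2 * N * sz F))) := by
    apply hν.le _ hg0 _ (Real.exp_pos _)
    intro z hz'
    rw [← aeval_thr]
    exact hval z hz'
  rw [Real.log_exp] at h1
  have h2 : β / (4 * C3) * wt μ (S.g Q N) ≤ B / 4 := by
    calc β / (4 * C3) * wt μ (S.g Q N) ≤ β / (4 * C3) * (C3 * N * sz F) :=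
          mul_le_mul_of_nonneg_left hwg (by positivity)
      _ = β * (N * sz F) / 4 := by field_simp
      _ = B / 4 := by rw [← hBβ]
  have h3 : C2 * N * sz F ≤ B / 2 := by nlinarith
  have h4 : 0 < B := by rw [hBβ]; positivity
  linarith

end Pool.Agent.Helper75.LRBez
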