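import Pool.Agent.Helper21.LR.Stmts

/-!
MP_6358c9_nt (Laurent-Roy), module LR-PRODLIN: products of linear forms have a large supremum on
the polydisc.
-/

open MeasureTheory Real
open Pool.Agent.Helper21.LR

namespace Pool.Agent.Helper75.LRProdLin

/-- if `|P| ≤ B` on the unit circle then the Mahler measure is at most `B` -/
lemma mahler_le (P : Polynomial ℂ) (B : ℝ) (hB : 0 ≤ B)
    (h : ∀ z : ℂ, ‖z‖ = 1 → ‖P.eval z‖ ≤ B) : P.mahlerMeasure ≤ B := by
  by_cases hP : P = 0
  · simpa [hP] using hB
  have h0 : ∃ z : ℂ, ‖z‖ = 1 ∧ P.eval z ≠ 0 := by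
    by_contra hcon
    push Not at hcon
    apply hP
    apply Polynomial.eq_zero_of_infinite_isRoot
    have hinf : (Metric.sphere (0:ℂ) 1).Infinite := by
      have h1 : Set.InjOn (circleMap 0 1) (Set.Ioc 0 (2 * π)) := by
        have := injOn_circleMap_of_abs_sub_le (c := 0) (R := 1) one_ne_zero (a := 0) (b := 2 * π)
          (by simp [le_of_eq, pi_nonneg])
        rwa [Set.uIoc_of_le (by positivity)] at this
      have h2 : (circleMap 0 1 '' Set.Ioc 0 (2 * π)).Infinite :=
        (Set.Ioc_infinite (by positivity)).image h1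
      refine h2.mono ?_
      rintro _ ⟨s, _, rfl⟩
      simp [norm_circleMap_zero]
    refine hinf.mono fun z hz => ?_
    exact hcon z (by simpa using hz)
  have hBpos : 0 < B := by
    obtain ⟨z, hz, hz2⟩ := h0
    exact (norm_pos_iff.2 hz2).trans_le (h z hz)
  have h1 : P.logMahlerMeasure ≤ log B := by
    rw [Polynomial.logMahlerMeasure_def]
    have h2 : circleAverage (fun _ : ℂ => log B) 0 1 = log B := by
      simp [circleAverage_def, mul_assoc]
    rw [← h2, circleAverage_def, circleAverage_def, smul_eq_mul, smul_eq_mul]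
    apply mul_le_mul_of_nonneg_left _ (by positivity)
    apply intervalIntegral.integral_mono_ae_restrict (by positivity)
      P.intervalIntegrable_mahlerMeasure (by simp)
    rw [Filter.EventuallyLE, Filter.eventually_iff_exists_mem]
    use {x : ℝ | P.eval (circleMap 0 1 x) ≠ 0}
    constructor
    · rw [mem_ae_iff, Set.compl_def, Measure.restrict_apply' (by simp)]
      apply (Set.Finite.of_sdiff _ <| Set.finite_singleton (2 * π)).measure_zero
      simp only [ne_eq, Set.mem_ofPred_eq, Decidable.not_not, Set.inter_sdiff_assoc,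
        Set.Icc_sdiff_right]
      rw [Set.ofPred_inter_eq_sep]
      apply Set.Finite.of_finite_image (f := circleMap 0 1)
        ((Multiset.finite_toSet P.roots).subset _)
        <| fun _ h _ k l ↦ injOn_circleMap_of_abs_sub_le' one_ne_zero (by linarith) h.1 k.1 l
      simp [hP]
    · intro x hx
      exact Real.log_le_log (norm_pos_iff.2 hx) (h _ (by simp [norm_circleMap_zero]))
  rw [Polynomial.logMahlerMeasure_eq_log_MahlerMeasure] at h1
  exact (Real.log_le_log_iff (Polynomial.mahlerMeasure_pos_of_ne_zero hP) hBpos).1 h1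

/-- the polynomial of a linear form -/
noncomputable def lf {n : ℕ} (q : Fin n → ℂ) : Polynomial ℂ :=
  ∑ j, Polynomial.C (q j) * Polynomial.X ^ (j : ℕ)

lemma lf_coeff {n : ℕ} (q : Fin n → ℂ) (j : Fin n) : (lf q).coeff j = q j := by
  simp only [lf, Polynomial.finsetSum_coeff, Polynomial.coeff_C_mul_X_pow]
  rw [Finset.sum_eq_single j]
  · simp
  · intro b _ hb
    rw [if_neg]
    intro h
    exact hb (Fin.ext h.symm)
  · simp

lemma lf_natDegree {n : ℕ} (q : Fin n → ℂ) : (lf q).natDegree ≤ n := by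
  apply Polynomial.natDegree_sum_le_of_forall_le
  intro j _
  exact (Polynomial.natDegree_C_mul_X_pow_le _ _).trans j.2.le

lemma norm_le {n : ℕ} (q : Fin n → ℂ) : ‖q‖ ≤ 2 ^ n * (lf q).mahlerMeasure := by
  have h0 := Polynomial.mahlerMeasure_nonneg (lf q)
  rw [pi_norm_le_iff_of_nonneg (by positivity)]
  intro j
  have h1 := Polynomial.norm_coeff_le_choose_mul_mahlerMeasure (j : ℕ) (lf q)
  rw [lf_coeff] at h1
  refine h1.trans (mul_le_mul_of_nonneg_right ?_ h0)
  calc (((lf q).natDegree.choose (j : ℕ) : ℕ) : ℝ) ≤ ((2 ^ (lf q).natDegree : ℕ) : ℝ) := by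
        exact_mod_cast Nat.choose_le_two_pow _ _
    _ = 2 ^ (lf q).natDegree := by push_cast; ring
    _ ≤ 2 ^ n := pow_le_pow_right₀ (by norm_num) (lf_natDegree q)

lemma mahler_prod {δ : ℕ} (f : Fin δ → Polynomial ℂ) :
    (∏ σ, f σ).mahlerMeasure = ∏ σ, (f σ).mahlerMeasure := by
  have := Polynomial.prod_mahlerMeasure_eq_mahlerMeasure_prod (Finset.univ.val.map f)
  simpa [Finset.prod, Multiset.map_map, Function.comp_def] using this

/-- **LR-PRODLIN** -/
theorem prodLin : SProdLin := by
  intro n δ q a B h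
  set P : Polynomial ℂ := Polynomial.C a * ∏ σ, lf (q σ) with hP
  have hB : 0 ≤ B := (norm_nonneg _).trans (h 0 (by simp))
  have h1 : P.mahlerMeasure ≤ B := by
    apply mahler_le P B hB
    intro z hz
    have h2 := h (fun j => z ^ (j : ℕ)) (fun j => by simp [hz])
    have h3 : P.eval z = a * ∏ σ, ∑ j : Fin n, z ^ (j : ℕ) * q σ j := by
      rw [hP, Polynomial.eval_mul, Polynomial.eval_C, Polynomial.eval_prod]
      congr 1
      refine Finset.prod_congr rfl fun σ _ => ?_
      rw [lf, Polynomial.eval_finsetSum]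
      refine Finset.sum_congr rfl fun j _ => ?_
      rw [Polynomial.eval_mul, Polynomial.eval_C, Polynomial.eval_pow, Polynomial.eval_X, mul_comm]
    rw [h3]
    exact h2
  have h2 : P.mahlerMeasure = ‖a‖ * ∏ σ, (lf (q σ)).mahlerMeasure := by
    rw [hP, Polynomial.mahlerMeasure_mul, Polynomial.mahlerMeasure_const, mahler_prod]
  rw [h2] at h1
  calc ‖a‖ * ∏ σ, ‖q σ‖ ≤ ‖a‖ * ∏ σ, (2 ^ n * (lf (q σ)).mahlerMeasure) := by
        apply mul_le_mul_of_nonneg_left _ (norm_nonneg a)
        exact Finset.prod_le_prod (fun σ _ => norm_nonneg _) fun σ _ => norm_le _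
    _ = 2 ^ (n * δ) * (‖a‖ * ∏ σ, (lf (q σ)).mahlerMeasure) := by
        rw [Finset.prod_mul_distrib, Finset.prod_const, Finset.card_univ, Fintype.card_fin,
          ← pow_mul]
        ring
    _ ≤ 2 ^ (n * δ) * B := mul_le_mul_of_nonneg_left h1 (by positivity)

end Pool.Agent.Helper75.LRProdLin
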