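import Pool.Agent.Helper21.LR.Stmts

/-!
MP_6358c9_nt (Laurent-Roy), module LR-TOP: the top variety, and the principal kernel lemma.
-/

open MvPolynomial
open Pool.Agent.Helper21.LR

namespace Pool.Agent.Helper75.LRTop

/-- one variable over a factorial ring: the polynomials vanishing at a point form a principal
ideal if the constants embed -/
lemma principal_one {R : Type} [CommRing R] [IsDomain R] [UniqueFactorizationMonoid R]
    (ψ : R →+* ℂ) (hψ : Function.Injective ψ) (t : ℂ) (f : Polynomial R) (hf : Prime f)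
    (hft : f.eval₂ ψ t = 0) (g : Polynomial R) (hg : g.eval₂ ψ t = 0) : f ∣ g := by
  have hdeg : f.natDegree ≠ 0 := by
    intro h
    obtain ⟨a, ha⟩ : ∃ a, f = Polynomial.C a := ⟨_, Polynomial.eq_C_of_natDegree_eq_zero h⟩
    rw [ha, Polynomial.eval₂_C] at hft
    have : a = 0 := hψ (by rw [hft, map_zero])
    rw [this, map_zero] at ha
    exact hf.ne_zero ha
  have hprim : f.IsPrimitive := hf.irreducible.isPrimitive hdeg
  let K := FractionRing R
  let Ψ : K →+* ℂ := IsFractionRing.lift hψ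
  have hΨ : ∀ p : Polynomial R, (p.map (algebraMap R K)).eval₂ Ψ t = p.eval₂ ψ t := by
    intro p
    rw [Polynomial.eval₂_map]
    congr 1
    ext x
    exact IsFractionRing.lift_algebraMap hψ x
  have hirr : Irreducible (f.map (algebraMap R K)) :=
    hprim.irreducible_iff_irreducible_map_fraction_map.1 hf.irreducible
  apply hprim.dvd_of_fraction_map_dvd_fraction_map (K := K)
  by_contra hnd
  obtain ⟨a, b, hab⟩ := (hirr.coprime_iff_not_dvd.2 hnd)
  have := congrArg (Polynomial.eval₂ Ψ t) hab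
  rw [Polynomial.eval₂_add, Polynomial.eval₂_mul, Polynomial.eval₂_mul, hΨ, hΨ, hft, hg,
    Polynomial.eval₂_one] at this
  simp at this

/-- **principal kernel lemma** -/
theorem principal {ι : Type} [Finite ι] [DecidableEq ι] (i0 : ι) (z : ι → ℂ)
    (hind : ∀ P : MvPolynomial {i // i ≠ i0} ℤ, aeval (fun i : {i // i ≠ i0} => z i) P = 0 → P = 0)
    (hdep : ∃ D : MvPolynomial ι ℤ, D ≠ 0 ∧ aeval z D = 0) :
    ∃ F : MvPolynomial ι ℤ, F ≠ 0 ∧ ∀ G, aeval z G = 0 ↔ F ∣ G := by
  let K : Ideal (MvPolynomial ι ℤ) := RingHom.ker (aeval z : MvPolynomial ι ℤ →ₐ[ℤ] ℂ)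
  have hK : K.IsPrime := RingHom.ker_isPrime _
  have hK0 : K ≠ ⊥ := by
    obtain ⟨D, hD, hD2⟩ := hdep
    intro h
    have : D ∈ K := hD2
    rw [h] at this
    exact hD (by simpa using this)
  obtain ⟨F, hFK, hF⟩ := hK.exists_mem_prime_of_ne_bot hK0
  have hFz : aeval z F = 0 := hFK
  refine ⟨F, hF.ne_zero, fun G => ⟨fun hG => ?_, ?_⟩⟩
  · let R := MvPolynomial {i // i ≠ i0} ℤ
    let e0 : MvPolynomial ι ℤ ≃ₐ[ℤ] MvPolynomial (Option {i // i ≠ i0}) ℤ :=
      renameEquiv ℤ (Equiv.optionSubtypeNe i0).symm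
    let e : MvPolynomial ι ℤ ≃ₐ[ℤ] Polynomial R := e0.trans (optionEquivLeft ℤ {i // i ≠ i0})
    let ψ : R →+* ℂ := (aeval (fun i : {i // i ≠ i0} => z i) : R →ₐ[ℤ] ℂ).toRingHom
    have hψ : Function.Injective ψ := by
      rw [injective_iff_map_eq_zero]
      exact fun a ha => hind a ha
    have hev : ∀ P : MvPolynomial ι ℤ, (e P).eval₂ ψ (z i0) = aeval z P := by
      intro P
      have h1 : (Polynomial.eval₂RingHom ψ (z i0)).comp (e : MvPolynomial ι ℤ →+* Polynomial R) =
          ((aeval z : MvPolynomial ι ℤ →ₐ[ℤ] ℂ) : MvPolynomial ι ℤ →+* ℂ) := by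
        apply MvPolynomial.ringHom_ext
        · intro n
          simp [e, e0]
        · intro i
          show Polynomial.eval₂ ψ (z i0) (optionEquivLeft ℤ {i // i ≠ i0}
            (rename (Equiv.optionSubtypeNe i0).symm (X i))) = aeval z (X i)
          rw [rename_X, aeval_X]
          by_cases hi : i = i0
          · rw [hi, Equiv.optionSubtypeNe_symm_self, optionEquivLeft_X_none, Polynomial.eval₂_X]
          · have h2 : (Equiv.optionSubtypeNe i0).symm i = some ⟨i, hi⟩ :=
              Equiv.optionSubtypeNe_symm_of_ne hi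
            rw [h2, optionEquivLeft_X_some, Polynomial.eval₂_C]
            exact aeval_X _ _
      exact congrFun (congrArg DFunLike.coe h1) P
    have hfe : Prime (e F) := (MulEquiv.prime_iff (e : MvPolynomial ι ℤ ≃* Polynomial R)).2 hF
    have hdvd : e F ∣ e G := by
      apply principal_one ψ hψ (z i0) (e F) hfe
      · rw [hev, hFz]
      · rw [hev, hG]
    exact (map_dvd_iff e).1 hdvd
  · rintro ⟨H, rfl⟩
    rw [map_mul, hFz, zero_mul]


/-- algebraically independent complex numbers -/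
lemma exists_indep (κ : Type) [Finite κ] : ∃ y : κ → ℂ, AlgebraicIndependent ℤ y := by
  obtain ⟨κ', v, hv⟩ := exists_isTranscendenceBasis' ℤ ℂ
  have hcard : Cardinal.mk ℂ = Cardinal.mk κ' := by
    apply IsAlgClosed.cardinal_eq_cardinal_transcendence_basis_of_aleph0_lt' v hv
    · exact Cardinal.mk_le_aleph0
    · rw [Cardinal.mk_complex]
      exact Cardinal.aleph0_lt_continuum
  have hinf : Infinite κ' := by
    rw [Cardinal.infinite_iff, ← hcard, Cardinal.mk_complex]
    exact Cardinal.aleph0_le_continuum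
  obtain ⟨n, ⟨e⟩⟩ := Finite.exists_equiv_fin κ
  let f : κ → κ' := fun k => Infinite.natEmbedding κ' (e k)
  have hf : Function.Injective f := by
    intro a b hab
    exact e.injective (Fin.val_injective ((Infinite.natEmbedding κ').injective hab))
  exact ⟨v ∘ f, hv.1.comp f hf⟩

/-- index type of the generic point and the generic hyperplanes -/
abbrev Ix (m : ℕ) := Fin m ⊕ (Fin (m+1) × Fin m)

/-- the generic hyperplanes through the generic point, as polynomials -/
noncomputable def tp {m : ℕ} : Fin (m+1) × Fin (m+1) → MvPolynomial (Ix m) ℤ :=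
  fun ij => Fin.cases (motive := fun _ => MvPolynomial (Ix m) ℤ)
    (-∑ j : Fin m, X (Sum.inr (ij.1, j)) * X (Sum.inl j)) (fun j => X (Sum.inr (ij.1, j))) ij.2

lemma aeval_tp {m : ℕ} (y : Ix m → ℂ) (P : MvPolynomial (Fin (m+1) × Fin (m+1)) ℤ) :
    aeval y (aeval tp P) = aeval (thr (fun j => y (Sum.inl j)) (fun ij => y (Sum.inr ij))) P := by
  have h1 : ((aeval y : MvPolynomial (Ix m) ℤ →ₐ[ℤ] ℂ).comp (aeval tp)) =
      aeval (thr (fun j => y (Sum.inl j)) (fun ij => y (Sum.inr ij))) := by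
    apply MvPolynomial.algHom_ext
    rintro ⟨i, j⟩
    refine Fin.cases ?_ (fun j => ?_) j <;> simp [tp, thr]
  exact congrFun (congrArg DFunLike.coe h1) P

/-- a relation at the generic point is an identity -/
lemma generic {m : ℕ} (y : Ix m → ℂ) (hy : AlgebraicIndependent ℤ y)
    (P : MvPolynomial (Fin (m+1) × Fin (m+1)) ℤ)
    (h : aeval (thr (fun j => y (Sum.inl j)) (fun ij => y (Sum.inr ij))) P = 0)
    (ξ : Fin m → ℂ) (u : Fin (m+1) × Fin m → ℂ) : aeval (thr ξ u) P = 0 := by
  rw [← aeval_tp] at h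
  have h0 : aeval tp P = 0 := (algebraicIndependent_iff.1 hy) _ h
  have h1 := aeval_tp (Sum.elim ξ u) P
  rw [h0, map_zero] at h1
  simpa using h1.symm

lemma indep_rest {m : ℕ} (y : Ix m → ℂ) (hy : AlgebraicIndependent ℤ y)
    (P : MvPolynomial {i : Fin (m+1) × Fin (m+1) // i ≠ (0, 0)} ℤ)
    (h : aeval (fun i : {i : Fin (m+1) × Fin (m+1) // i ≠ (0, 0)} =>
      thr (fun j => y (Sum.inl j)) (fun ij => y (Sum.inr ij)) i) P = 0) : P = 0 := by
  have hgen : ∀ (ξ : Fin m → ℂ) (u : Fin (m+1) × Fin m → ℂ),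
      aeval (fun i : {i : Fin (m+1) × Fin (m+1) // i ≠ (0, 0)} => thr ξ u i) P = 0 := by
    intro ξ u
    have := generic y hy (rename Subtype.val P) (by rw [aeval_rename]; exact h) ξ u
    rwa [aeval_rename] at this
  -- the block determinant
  have hne : ∀ i j : Fin m, ((i.succ, j.succ) : Fin (m+1) × Fin (m+1)) ≠ (0, 0) := by
    intro i j hij
    exact Fin.succ_ne_zero i (congrArg Prod.fst hij)
  have hne2 : ∀ (i : Fin (m+1)) (j : Fin m), ((i, j.succ) : Fin (m+1) × Fin (m+1)) ≠ (0, 0) := by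
    intro i j hij
    exact Fin.succ_ne_zero j (congrArg Prod.snd hij)
  have hne3 : ∀ (i : Fin m), ((i.succ, 0) : Fin (m+1) × Fin (m+1)) ≠ (0, 0) := by
    intro i hij
    exact Fin.succ_ne_zero i (congrArg Prod.fst hij)
  let I := {i : Fin (m+1) × Fin (m+1) // i ≠ (0, 0)}
  let A : Matrix (Fin m) (Fin m) (MvPolynomial I ℂ) := fun i j => X ⟨(i.succ, j.succ), hne i j⟩
  have hD : A.det ≠ 0 := by
    intro h0
    have h1 : (A.map (eval (fun k : I => if k.1.1 = k.1.2 then (1:ℂ) else 0))).det = 0 := by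
      have := RingHom.map_det (eval (fun k : I => if k.1.1 = k.1.2 then (1:ℂ) else 0)) A
      rw [h0, map_zero] at this
      exact this.symm
    have h2 : A.map (eval (fun k : I => if k.1.1 = k.1.2 then (1:ℂ) else 0)) = 1 := by
      ext i j
      simp only [Matrix.map_apply, A, eval_X, Matrix.one_apply, Fin.succ_inj]
    rw [h2, Matrix.det_one] at h1
    exact one_ne_zero h1
  have hprod : map (Int.castRingHom ℂ) P * A.det = 0 := by
    apply MvPolynomial.funext
    intro w
    rw [map_mul, map_zero]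
    by_cases hw : eval w A.det = 0
    · rw [hw, mul_zero]
    · let B : Matrix (Fin m) (Fin m) ℂ := fun i j => w ⟨(i.succ, j.succ), hne i j⟩
      have hB : B.det = eval w A.det := by
        rw [RingHom.map_det]
        congr 1
        ext i j
        simp [B, A]
      have hBu : IsUnit B.det := by
        rw [hB]
        exact isUnit_iff_ne_zero.2 hw
      let ξ : Fin m → ℂ := B⁻¹.mulVec (fun i => -w ⟨(i.succ, 0), hne3 i⟩)
      let u : Fin (m+1) × Fin m → ℂ := fun ij => w ⟨(ij.1, ij.2.succ), hne2 ij.1 ij.2⟩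
      have hξ : ∀ i : Fin m, -∑ j, u (i.succ, j) * ξ j = w ⟨(i.succ, 0), hne3 i⟩ := by
        intro i
        have h1 : B.mulVec ξ = fun i => -w ⟨(i.succ, 0), hne3 i⟩ := by
          rw [Matrix.mulVec_mulVec, Matrix.mul_nonsing_inv _ hBu, Matrix.one_mulVec]
        have h2 := congrFun h1 i
        simp only [Matrix.mulVec, dotProduct] at h2
        have h3 : ∑ j, u (i.succ, j) * ξ j = ∑ j, B i j * ξ j := rfl
        rw [h3, h2, neg_neg]
      have hw2 : (fun i : I => thr ξ u i) = w := by
        funext ⟨⟨i, j⟩, hij⟩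
        revert hij
        refine Fin.cases ?_ (fun j => ?_) j
        · refine Fin.cases ?_ (fun i => ?_) i
          · intro hij
            exact absurd rfl hij
          · intro hij
            simp only [thr, Fin.cases_zero]
            exact hξ i
        · intro hij
          simp [thr, u]
      have h4 := hgen ξ u
      rw [hw2] at h4
      have h5 : eval w (map (Int.castRingHom ℂ) P) = aeval w P := by
        rw [eval_map, aeval_def]
        rfl
      rw [h5, h4, zero_mul]
  rcases mul_eq_zero.1 hprod with h1 | h1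
  · exact (map_injective _ (Int.cast_injective : Function.Injective (Int.castRingHom ℂ)))
      (by rw [h1, map_zero])
  · exact absurd h1 hD

/-- **LR-TOP** -/
theorem top : STop := by
  intro m
  obtain ⟨y, hy⟩ := exists_indep (Ix m)
  let ξ : Fin m → ℂ := fun j => y (Sum.inl j)
  let u0 : Fin (m+1) × Fin m → ℂ := fun ij => y (Sum.inr ij)
  have hξ : AlgebraicIndependent ℤ ξ := hy.comp Sum.inl Sum.inl_injective
  have hdep : ∃ D : MvPolynomial (Fin (m+1) × Fin (m+1)) ℤ, D ≠ 0 ∧ aeval (thr ξ u0) D = 0 := by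
    refine ⟨(Matrix.mvPolynomialX (Fin (m+1)) (Fin (m+1)) ℤ).det,
      Matrix.det_mvPolynomialX_ne_zero _ _, ?_⟩
    have h1 := AlgHom.map_det (aeval (thr ξ u0) : MvPolynomial (Fin (m+1) × Fin (m+1)) ℤ →ₐ[ℤ] ℂ)
      (Matrix.mvPolynomialX (Fin (m+1)) (Fin (m+1)) ℤ)
    rw [h1]
    let M : Matrix (Fin (m+1)) (Fin (m+1)) ℂ := fun i j => thr ξ u0 (i, j)
    have h2 : (aeval (thr ξ u0) : MvPolynomial (Fin (m+1) × Fin (m+1)) ℤ →ₐ[ℤ] ℂ).mapMatrix
        (Matrix.mvPolynomialX (Fin (m+1)) (Fin (m+1)) ℤ) = M := by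
      ext i j
      simp [M, Matrix.mvPolynomialX]
    rw [h2]
    apply Matrix.exists_mulVec_eq_zero_iff.1
    refine ⟨Fin.cons 1 ξ, ?_, ?_⟩
    · intro h
      have := congrFun h 0
      simp at this
    · funext i
      simp only [Matrix.mulVec, dotProduct, Pi.zero_apply]
      rw [Fin.sum_univ_succ]
      simp [M, thr]
  obtain ⟨F, hF0, hF⟩ := principal (0, 0) (thr ξ u0) (indep_rest y hy) hdep
  refine ⟨ξ, F, ⟨⟨hF0, fun G => ⟨fun h => (hF G).1 (h u0), ?_⟩⟩, ?_⟩, ?_⟩
  · intro h u
    exact generic y hy G ((hF G).2 h) ξ u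
  · have h1 : (AlgebraicIndependent.matroid ℤ ℂ).Indep (Set.range ξ) := by
      rw [AlgebraicIndependent.matroid_indep_iff]
      exact AlgebraicIndependent.to_subtype_range hξ
    have hinj : Function.Injective ξ := AlgebraicIndependent.injective hξ
    unfold trd rk
    rw [h1.eRk_eq_encard, ← Set.image_univ, hinj.injOn.encard_image, Set.encard_univ]
    simp
  · intro p Q hQ
    have : Q = 0 := (algebraicIndependent_iff.1 hξ) Q hQ
    rw [this, map_zero]

end Pool.Agent.Helper75.LRTop
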