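import Pool.Agent.Helper21.LR.Stmts

/-!
MP_6358c9_nt (Laurent-Roy): elementary consequences of the multivariate Mahler functional.
-/

open MvPolynomial Real
open Pool.Agent.Helper21.LR

namespace Pool.Agent.Helper75.LRMah

set_option linter.unusedSectionVars false

variable {ι : Type} [Fintype ι]

/-- the properties of the Mahler functional -/
structure Mah (μ : MvPolynomial ι ℂ → ℝ) : Prop where
  mul : ∀ P Q : MvPolynomial ι ℂ, P ≠ 0 → Q ≠ 0 → μ (P * Q) = μ P + μ Q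
  le : ∀ P : MvPolynomial ι ℂ, P ≠ 0 → ∀ B : ℝ, 0 < B →
    (∀ z : ι → ℂ, (∀ i, ‖z i‖ ≤ 1) → ‖eval z P‖ ≤ B) → μ P ≤ Real.log B
  coeff_le : ∀ P : MvPolynomial ι ℂ, ∀ α ∈ P.support,
    Real.log ‖P.coeff α‖ ≤ μ P + Fintype.card ι * P.totalDegree * Real.log 2
  exists_le : ∀ P : MvPolynomial ι ℂ, P ≠ 0 → ∃ α ∈ P.support, Real.log ‖P.coeff α‖ ≤ μ P
  const : ∀ c : ℂ, c ≠ 0 → μ (C c) = Real.log ‖c‖

lemma exists_mah (h : SMahler) (ι : Type) [Fintype ι] :
    ∃ μ : MvPolynomial ι ℂ → ℝ, Mah μ := by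
  obtain ⟨μ, h1, h2, h3, h4, h5⟩ := h ι
  exact ⟨μ, ⟨h1, h2, h3, h4, h5⟩⟩

/-- complexification of an integer polynomial -/
noncomputable def zc {ι : Type} (P : MvPolynomial ι ℤ) : MvPolynomial ι ℂ :=
  map (Int.castRingHom ℂ) P

lemma zc_ne {P : MvPolynomial ι ℤ} (h : P ≠ 0) : zc P ≠ 0 := by
  unfold zc
  rw [Ne, map_eq_zero_iff _ (map_injective _ (Int.cast_injective))]
  exact h

lemma zc_mul (P Q : MvPolynomial ι ℤ) : zc (P * Q) = zc P * zc Q := by simp [zc]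

lemma eval_zc (P : MvPolynomial ι ℤ) (z : ι → ℂ) : eval z (zc P) = aeval z P := by
  rw [zc, eval_map, aeval_def]
  rfl

lemma zc_totalDegree (P : MvPolynomial ι ℤ) : (zc P).totalDegree = P.totalDegree := by
  unfold totalDegree zc
  rw [support_map_of_injective _ (Int.cast_injective : Function.Injective (Int.castRingHom ℂ))]

variable {μ : MvPolynomial ι ℂ → ℝ}

lemma zc_nonneg (hμ : Mah μ) {P : MvPolynomial ι ℤ} (h : P ≠ 0) : 0 ≤ μ (zc P) := by
  obtain ⟨α, hα, h1⟩ := hμ.exists_le (zc P) (zc_ne h)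
  refine le_trans ?_ h1
  apply Real.log_nonneg
  rw [mem_support_iff] at hα
  rw [zc, coeff_map] at hα ⊢
  simp only [eq_intCast, ne_eq, Int.cast_eq_zero] at hα ⊢
  rw [Complex.norm_intCast]
  exact_mod_cast Int.one_le_abs hα

lemma one_le_ht {P : MvPolynomial ι ℤ} (h : P ≠ 0) : ∃ α ∈ P.support, ht P = (P.coeff α).natAbs := by
  have hne : P.support.Nonempty := support_nonempty.2 h
  obtain ⟨α, hα, h1⟩ := Finset.exists_mem_eq_sup P.support hne fun α => (P.coeff α).natAbs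
  exact ⟨α, hα, h1⟩

lemma log_ht_le (hμ : Mah μ) {P : MvPolynomial ι ℤ} (h : P ≠ 0) :
    Real.log (ht P) ≤ μ (zc P) + Fintype.card ι * P.totalDegree * Real.log 2 := by
  obtain ⟨α, hα, h1⟩ := one_le_ht h
  have h2 : α ∈ (zc P).support := by
    rw [mem_support_iff, zc, coeff_map]
    simpa using mem_support_iff.1 hα
  have h3 := hμ.coeff_le (zc P) α h2
  rw [zc_totalDegree] at h3
  refine le_trans (le_of_eq ?_) h3
  rw [h1, zc, coeff_map]
  simp [Nat.cast_natAbs]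

/-- weight -/
noncomputable def wt (μ : MvPolynomial ι ℂ → ℝ) (P : MvPolynomial ι ℤ) : ℝ :=
  P.totalDegree + μ (zc P)

lemma wt_mul (hμ : Mah μ) {P Q : MvPolynomial ι ℤ} (hP : P ≠ 0) (hQ : Q ≠ 0) :
    wt μ (P * Q) = wt μ P + wt μ Q := by
  unfold wt
  rw [totalDegree_mul_of_isDomain hP hQ, zc_mul, hμ.mul _ _ (zc_ne hP) (zc_ne hQ)]
  push_cast
  ring

lemma wt_nonneg (hμ : Mah μ) {P : MvPolynomial ι ℤ} (hP : P ≠ 0) : 0 ≤ wt μ P :=
  add_nonneg (Nat.cast_nonneg _) (zc_nonneg hμ hP)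

lemma deg_le_wt (hμ : Mah μ) {P : MvPolynomial ι ℤ} (hP : P ≠ 0) : (P.totalDegree : ℝ) ≤ wt μ P :=
  le_add_of_nonneg_right (zc_nonneg hμ hP)

lemma wt_dvd (hμ : Mah μ) {P g : MvPolynomial ι ℤ} (hg : g ≠ 0) (h : P ∣ g) :
    wt μ P ≤ wt μ g := by
  obtain ⟨R, rfl⟩ := h
  have hP := left_ne_zero_of_mul hg
  have hR := right_ne_zero_of_mul hg
  rw [wt_mul hμ hP hR]
  linarith [wt_nonneg hμ hR]

lemma sz_le (hμ : Mah μ) {P : MvPolynomial ι ℤ} (hP : P ≠ 0) (M : ℝ)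
    (hM : (Fintype.card ι : ℝ) ≤ M) : sz P ≤ (1 + M) * wt μ P := by
  have h1 := log_ht_le hμ hP
  have h2 := deg_le_wt hμ hP
  have h3 : Real.log 2 ≤ 1 := by linarith [Real.log_two_lt_d9]
  have h4 : 0 ≤ Real.log 2 := Real.log_nonneg (by norm_num)
  have h5 : (Fintype.card ι : ℝ) * P.totalDegree * Real.log 2 ≤ M * wt μ P := by
    have h0 : (0:ℝ) ≤ Fintype.card ι := Nat.cast_nonneg _
    have h6 : (Fintype.card ι : ℝ) * P.totalDegree ≤ M * wt μ P :=
      mul_le_mul hM h2 (Nat.cast_nonneg _) (h0.trans hM)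
    have h7 : (0:ℝ) ≤ (Fintype.card ι : ℝ) * P.totalDegree := by positivity
    nlinarith
  unfold sz
  have h8 : (P.totalDegree : ℝ) + μ (zc P) = wt μ P := rfl
  linarith

lemma card_support_le (G : MvPolynomial ι ℂ) (d : ℕ) (h : G.totalDegree ≤ d) :
    G.support.card ≤ (d + 1) ^ Fintype.card ι := by
  classical
  have h1 : G.support.card ≤ (Fintype.piFinset fun _ : ι => Finset.range (d + 1)).card := by
    apply Finset.card_le_card_of_injOn (fun α i => α i)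
    · intro α hα
      simp only [Finset.mem_coe, Fintype.mem_piFinset, Finset.mem_range]
      intro i
      have h2 : α i ≤ G.totalDegree := (le_degreeOf_of_mem_support i hα).trans
        (degreeOf_le_totalDegree G i)
      omega
    · intro α _ β _ hab
      exact DFunLike.coe_injective hab
  rwa [Fintype.card_piFinset, Finset.prod_const, Finset.card_range, Finset.card_univ] at h1

lemma norm_eval_le (hμ : Mah μ) (G : MvPolynomial ι ℂ) (d : ℕ) (h : G.totalDegree ≤ d) (M : ℝ)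
    (hM : (Fintype.card ι : ℝ) ≤ M) (z : ι → ℂ) (hz : ∀ i, ‖z i‖ ≤ 1) :
    ‖eval z G‖ ≤ Real.exp (μ G + 2 * M * d) := by
  have h0 : (0:ℝ) ≤ Fintype.card ι := Nat.cast_nonneg _
  have h3 : Real.log 2 ≤ 1 := by linarith [Real.log_two_lt_d9]
  have h4 : 0 ≤ Real.log 2 := Real.log_nonneg (by norm_num)
  have hd : (G.totalDegree : ℝ) ≤ d := by exact_mod_cast h
  have h1 : ∀ α ∈ G.support, ‖G.coeff α‖ ≤ Real.exp (μ G + M * d) := by
    intro α hα
    have h5 := hμ.coeff_le G α hα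
    have h6 : (Fintype.card ι : ℝ) * G.totalDegree * Real.log 2 ≤ M * d := by
      have h7 : (Fintype.card ι : ℝ) * G.totalDegree ≤ M * d :=
        mul_le_mul hM hd (Nat.cast_nonneg _) (h0.trans hM)
      have h8 : (0:ℝ) ≤ (Fintype.card ι : ℝ) * G.totalDegree := by positivity
      nlinarith
    have h9 : 0 < ‖G.coeff α‖ := norm_pos_iff.2 (mem_support_iff.1 hα)
    rw [← Real.log_le_iff_le_exp h9]
    linarith
  have h2 : ‖eval z G‖ ≤ ∑ α ∈ G.support, Real.exp (μ G + M * d) := by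
    rw [eval_eq]
    refine norm_sum_le_of_le _ fun α hα => ?_
    rw [norm_mul, norm_prod]
    have h10 : ∏ i ∈ α.support, ‖z i ^ α i‖ ≤ 1 := by
      apply Finset.prod_le_one (fun _ _ => norm_nonneg _)
      intro i _
      rw [norm_pow]
      exact pow_le_one₀ (norm_nonneg _) (hz i)
    calc ‖G.coeff α‖ * ∏ i ∈ α.support, ‖z i ^ α i‖ ≤ ‖G.coeff α‖ * 1 :=
          mul_le_mul_of_nonneg_left h10 (norm_nonneg _)
      _ ≤ _ := by rw [mul_one]; exact h1 α hα
  rw [Finset.sum_const, nsmul_eq_mul] at h2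
  have h5 : (G.support.card : ℝ) ≤ Real.exp (M * d) := by
    have h6 : (G.support.card : ℝ) ≤ ((d : ℝ) + 1) ^ Fintype.card ι := by
      exact_mod_cast card_support_le G d h
    have h7 : ((d : ℝ) + 1) ^ Fintype.card ι ≤ (Real.exp d) ^ Fintype.card ι :=
      pow_le_pow_left₀ (by positivity) (Real.add_one_le_exp _) _
    rw [← Real.exp_nat_mul] at h7
    refine (h6.trans h7).trans (Real.exp_le_exp.2 ?_)
    exact mul_le_mul_of_nonneg_right hM (Nat.cast_nonneg _)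
  calc ‖eval z G‖ ≤ G.support.card * Real.exp (μ G + M * d) := h2
    _ ≤ Real.exp (M * d) * Real.exp (μ G + M * d) :=
        mul_le_mul_of_nonneg_right h5 (Real.exp_pos _).le
    _ = _ := by rw [← Real.exp_add]; ring_nf

/-- induction over the irreducible factors -/
lemma factor_le {κ : Type} [Fintype κ] {ν : MvPolynomial κ ℂ → ℝ} (hμ : Mah μ) (hν : Mah ν)
    (φ : MvPolynomial ι ℤ →ₐ[ℤ] MvPolynomial κ ℂ) (ρ : ℝ) (hρ : 0 ≤ ρ) (g : MvPolynomial ι ℤ) :
    g ≠ 0 → (∀ P, Irreducible P → P ∣ g → φ P ≠ 0 ∧ -ν (φ P) ≤ ρ * wt μ P) →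
    φ g ≠ 0 ∧ -ν (φ g) ≤ ρ * wt μ g := by
  induction g using WfDvdMonoid.induction_on_irreducible with
  | zero => intro h; exact absurd rfl h
  | unit u hu =>
    intro _ _
    obtain ⟨c, hc, rfl⟩ := isUnit_iff_eq_C_of_isReduced.1 hu
    have h1 : φ (C c) = C (c : ℂ) := by
      have : (C c : MvPolynomial ι ℤ) = algebraMap ℤ _ c := rfl
      rw [this, AlgHom.commutes]
      simp
    have hc2 : ((c : ℤ) : ℂ) ≠ 0 := by
      have := hc.ne_zero
      exact_mod_cast this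
    have hc3 : ‖((c : ℤ) : ℂ)‖ = 1 := by
      rcases Int.isUnit_iff.1 hc with rfl | rfl <;> simp
    rw [h1]
    refine ⟨by simpa using hc2, ?_⟩
    rw [hν.const _ hc2, hc3, Real.log_one, neg_zero]
    exact mul_nonneg hρ (wt_nonneg hμ hu.ne_zero)
  | mul a i ha hi ih =>
    intro hne hP
    obtain ⟨h1, h2⟩ := ih ha fun P hPi hPa => hP P hPi (hPa.mul_left _)
    obtain ⟨h3, h4⟩ := hP i hi (dvd_mul_right _ _)
    rw [map_mul, wt_mul hμ hi.ne_zero ha, hν.mul _ _ h3 h1]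
    exact ⟨mul_ne_zero h3 h1, by linarith [mul_add ρ (wt μ i) (wt μ a)]⟩

lemma totalDegree_aeval_le {κ : Type} (f : ι → MvPolynomial κ ℂ) (hf : ∀ i, (f i).totalDegree ≤ 1)
    (P : MvPolynomial ι ℤ) : (aeval f P).totalDegree ≤ P.totalDegree := by
  rw [aeval_def, eval₂_eq]
  refine totalDegree_finsetSum_le fun α hα => ?_
  refine (totalDegree_mul _ _).trans ?_
  have h1 : ((algebraMap ℤ (MvPolynomial κ ℂ)) (P.coeff α)).totalDegree = 0 := by
    have : (algebraMap ℤ (MvPolynomial κ ℂ)) (P.coeff α) = C ((P.coeff α : ℤ) : ℂ) := by simp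
    rw [this, totalDegree_C]
  rw [h1, zero_add]
  refine (totalDegree_finsetProd _ _).trans ?_
  refine le_trans ?_ (le_totalDegree hα)
  rw [Finsupp.sum]
  refine Finset.sum_le_sum fun i _ => ?_
  refine (totalDegree_pow _ _).trans ?_
  calc α i * (f i).totalDegree ≤ α i * 1 := Nat.mul_le_mul_left _ (hf i)
    _ = α i := mul_one _

end Pool.Agent.Helper75.LRMah
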