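import Pool.Agent.Helper21.LR.Stmts

/-!
MP_6358c9_nt (Laurent-Roy), module LR-MAHLER: the logarithmic Mahler measure in several variables.
-/

open MvPolynomial MeasureTheory Real
open Pool.Agent.Helper21.LR

namespace Pool.Agent.Helper75.LRMahler

/-- uniform probability measure on the parameter interval of the circle -/
noncomputable def nu : Measure ℝ := (ENNReal.ofReal (2 * π)⁻¹) • volume.restrict (Set.Ioc 0 (2 * π))

lemma two_pi_inv_pos : 0 < (2 * π)⁻¹ := by positivity

instance : IsProbabilityMeasure nu := by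
  constructor
  simp only [nu, Measure.smul_apply, Measure.restrict_apply MeasurableSet.univ, Set.univ_inter,
    Real.volume_Ioc, sub_zero, smul_eq_mul]
  rw [← ENNReal.ofReal_mul (by positivity), inv_mul_cancel₀ (by positivity), ENNReal.ofReal_one]

/-- point of the torus -/
noncomputable def pt {n : ℕ} (t : Fin n → ℝ) : Fin n → ℂ := fun i => circleMap 0 1 (t i)

/-- the product measure -/
noncomputable def nun (n : ℕ) : Measure (Fin n → ℝ) := Measure.pi fun _ : Fin n => nu

instance (n : ℕ) : IsProbabilityMeasure (nun n) := by unfold nun; infer_instance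

lemma integrable_nu {f : ℝ → ℝ} (hf : IntervalIntegrable f volume 0 (2 * π)) : Integrable f nu := by
  unfold nu
  apply Integrable.smul_measure _ ENNReal.ofReal_ne_top
  exact (intervalIntegrable_iff_integrableOn_Ioc_of_le (by positivity)).1 hf

lemma integral_nu (f : ℝ → ℝ) : ∫ s, f s ∂nu = (2 * π)⁻¹ * ∫ s in (0:ℝ)..(2 * π), f s := by
  unfold nu
  rw [integral_smul_measure, intervalIntegral.integral_of_le (by positivity),
    ENNReal.toReal_ofReal (by positivity), smul_eq_mul]

lemma uni_integrable (p : Polynomial ℂ) :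
    Integrable (fun s => log ‖p.eval (circleMap 0 1 s)‖) nu :=
  integrable_nu p.intervalIntegrable_mahlerMeasure

lemma uni_integral (p : Polynomial ℂ) :
    ∫ s, log ‖p.eval (circleMap 0 1 s)‖ ∂nu = p.logMahlerMeasure := by
  rw [integral_nu, Polynomial.logMahlerMeasure_def, circleAverage_def, smul_eq_mul]

lemma uni_ne (p : Polynomial ℂ) (hp : p ≠ 0) : ∀ᵐ s ∂nu, p.eval (circleMap 0 1 s) ≠ 0 := by
  unfold nu
  apply Measure.ae_smul_measure
  rw [ae_iff, Measure.restrict_apply' measurableSet_Ioc]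
  apply Set.Finite.measure_zero
  apply Set.Finite.of_finite_image (f := circleMap 0 1) _ <|
    (injOn_circleMap_of_abs_sub_le one_ne_zero (a := 0) (b := 2 * π)
      (by simp [le_of_eq, pi_nonneg])).mono (fun _ h ↦ by
        have h2 := h.2
        rwa [Set.uIoc_of_le (by positivity)])
  apply p.roots.finite_toSet.subset
  rintro _ ⟨s, ⟨h, _⟩, rfl⟩
  simp only [ne_eq, not_not, Set.mem_ofPred_eq] at h
  simp [hp, h]

lemma norm_pt {n : ℕ} (t : Fin n → ℝ) (i : Fin n) : ‖pt t i‖ = 1 := by
  simp [pt, norm_circleMap_zero]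

/-- the integrand -/
noncomputable def lg {n : ℕ} (P : MvPolynomial (Fin n) ℂ) (t : Fin n → ℝ) : ℝ :=
  log ‖eval (pt t) P‖

lemma continuous_eval_pt {n : ℕ} (P : MvPolynomial (Fin n) ℂ) :
    Continuous (fun t : Fin n → ℝ => eval (pt t) P) := by
  have h : Continuous (fun t : Fin n → ℝ => pt t) := by
    apply continuous_pi
    intro i
    exact (continuous_circleMap 0 1).comp (continuous_apply i)
  exact P.continuous_eval.comp h

lemma measurable_lg {n : ℕ} (P : MvPolynomial (Fin n) ℂ) : Measurable (lg P) :=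
  Real.measurable_log.comp (continuous_eval_pt P).norm.measurable

/-- uniform bound on the torus -/
lemma exists_bound {n : ℕ} (P : MvPolynomial (Fin n) ℂ) :
    ∃ K : ℝ, 0 ≤ K ∧ ∀ t : Fin n → ℝ, lg P t ≤ K := by
  refine ⟨log (1 + ∑ α ∈ P.support, ‖P.coeff α‖), Real.log_nonneg ?_, fun t => ?_⟩
  · have : 0 ≤ ∑ α ∈ P.support, ‖P.coeff α‖ := Finset.sum_nonneg fun _ _ => norm_nonneg _
    linarith
  · have h0 : 0 ≤ ∑ α ∈ P.support, ‖P.coeff α‖ := Finset.sum_nonneg fun _ _ => norm_nonneg _
    have h1 : ‖eval (pt t) P‖ ≤ ∑ α ∈ P.support, ‖P.coeff α‖ := by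
      rw [eval_eq]
      refine norm_sum_le_of_le _ fun α _ => ?_
      rw [norm_mul, norm_prod]
      simp [norm_pt]
    unfold lg
    rcases (norm_nonneg (eval (pt t) P)).eq_or_lt with h | h
    · rw [← h, Real.log_zero]
      exact Real.log_nonneg (by linarith)
    · exact Real.log_le_log h (by linarith)

/-- univariate specialisation -/
noncomputable def sp {n : ℕ} (P : MvPolynomial (Fin (n+1)) ℂ) (t : Fin n → ℝ) : Polynomial ℂ :=
  Polynomial.map (eval (pt t)) (finSuccEquiv ℂ n P)

lemma eval_cons {n : ℕ} (P : MvPolynomial (Fin (n+1)) ℂ) (s : ℝ) (t : Fin n → ℝ) :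
    eval (pt (Fin.cons s t : Fin (n+1) → ℝ)) P = (sp P t).eval (circleMap 0 1 s) := by
  have h : pt (Fin.cons s t : Fin (n+1) → ℝ) = Fin.cons (circleMap 0 1 s) (pt t) := by
    funext i
    refine Fin.cases ?_ (fun j => ?_) i <;> simp [pt]
  rw [h, eval_eq_eval_mv_eval', sp]

/-- the splitting of the torus -/
lemma mp (n : ℕ) : MeasurePreserving (MeasurableEquiv.piFinSuccAbove (fun _ => ℝ) (0 : Fin (n+1)))
    (nun (n+1)) (nu.prod (nun n)) :=
  measurePreserving_piFinSuccAbove (fun _ : Fin (n+1) => nu) 0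

lemma symm_apply (n : ℕ) (s : ℝ) (t : Fin n → ℝ) :
    (MeasurableEquiv.piFinSuccAbove (fun _ => ℝ) (0 : Fin (n+1))).symm (s, t) =
      (Fin.cons s t : Fin (n+1) → ℝ) := by
  funext i
  refine Fin.cases ?_ (fun j => ?_) i <;> simp [MeasurableEquiv.piFinSuccAbove]


/-- the integrand on the product -/
noncomputable def F {n : ℕ} (P : MvPolynomial (Fin (n+1)) ℂ) (x : ℝ × (Fin n → ℝ)) : ℝ :=
  log ‖(sp P x.2).eval (circleMap 0 1 x.1)‖

lemma F_eq {n : ℕ} (P : MvPolynomial (Fin (n+1)) ℂ) (x : ℝ × (Fin n → ℝ)) :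
    F P x = lg P ((MeasurableEquiv.piFinSuccAbove (fun _ => ℝ) (0 : Fin (n+1))).symm x) := by
  obtain ⟨s, t⟩ := x
  rw [symm_apply, lg, eval_cons]
  rfl

lemma measurable_F {n : ℕ} (P : MvPolynomial (Fin (n+1)) ℂ) : Measurable (F P) := by
  have h : F P = (lg P) ∘ (MeasurableEquiv.piFinSuccAbove (fun _ => ℝ) (0 : Fin (n+1))).symm :=
    funext (F_eq P)
  rw [h]
  exact (measurable_lg P).comp (MeasurableEquiv.measurable _)

lemma lg_eq {n : ℕ} (P : MvPolynomial (Fin (n+1)) ℂ) :
    lg P = (F P) ∘ (MeasurableEquiv.piFinSuccAbove (fun _ => ℝ) (0 : Fin (n+1))) := by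
  funext t
  simp only [Function.comp_apply]
  rw [F_eq, MeasurableEquiv.symm_apply_apply]

lemma sp_ne {n : ℕ} (P : MvPolynomial (Fin (n+1)) ℂ) (t : Fin n → ℝ) (k : ℕ)
    (h : eval (pt t) ((finSuccEquiv ℂ n P).coeff k) ≠ 0) : sp P t ≠ 0 := by
  intro h0
  apply h
  have := congrArg (fun p => Polynomial.coeff p k) h0
  simpa [sp, Polynomial.coeff_map] using this

lemma sp_lead {n : ℕ} (P : MvPolynomial (Fin (n+1)) ℂ) (t : Fin n → ℝ)
    (h : eval (pt t) (finSuccEquiv ℂ n P).leadingCoeff ≠ 0) :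
    lg (finSuccEquiv ℂ n P).leadingCoeff t ≤ (sp P t).logMahlerMeasure := by
  have h1 := Polynomial.leadingCoeff_le_mahlerMeasure (sp P t)
  have h2 : (sp P t).leadingCoeff = eval (pt t) (finSuccEquiv ℂ n P).leadingCoeff :=
    Polynomial.leadingCoeff_map_of_leadingCoeff_ne_zero _ h
  rw [h2] at h1
  rw [Polynomial.logMahlerMeasure_eq_log_MahlerMeasure, lg]
  exact Real.log_le_log (norm_pos_iff.2 h) h1

lemma ae_ne_succ {n : ℕ} (P : MvPolynomial (Fin (n+1)) ℂ)
    (h : ∀ᵐ t ∂nun n, sp P t ≠ 0) : ∀ᵐ t ∂nun (n+1), eval (pt t) P ≠ 0 := by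
  have hm : MeasurableSet {x : ℝ × (Fin n → ℝ) | (sp P x.2).eval (circleMap 0 1 x.1) ≠ 0} := by
    have h1 : {x : ℝ × (Fin n → ℝ) | (sp P x.2).eval (circleMap 0 1 x.1) ≠ 0} =
        (MeasurableEquiv.piFinSuccAbove (fun _ => ℝ) (0 : Fin (n+1))).symm ⁻¹'
          {t | eval (pt t) P ≠ 0} := by
      ext ⟨s, t⟩
      simp only [Set.mem_ofPred_eq, Set.mem_preimage]
      rw [symm_apply, eval_cons]
    rw [h1]
    apply MeasurableEquiv.measurable
    exact (measurableSet_eq_fun (continuous_eval_pt P).measurable measurable_const).compl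
  have h2 : ∀ᵐ x ∂(nu.prod (nun n)), (sp P x.2).eval (circleMap 0 1 x.1) ≠ 0 := by
    rw [Measure.ae_prod_iff_ae_ae hm, Measure.ae_ae_comm hm]
    filter_upwards [h] with t ht
    exact uni_ne _ ht
  have h3 := (mp n).quasiMeasurePreserving.ae h2
  filter_upwards [h3] with t ht
  set x := (MeasurableEquiv.piFinSuccAbove (fun _ => ℝ) (0 : Fin (n+1))) t with hx
  have h4 : t = (MeasurableEquiv.piFinSuccAbove (fun _ => ℝ) (0 : Fin (n+1))).symm (x.1, x.2) := by
    rw [Prod.mk.eta, hx, MeasurableEquiv.symm_apply_apply]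
  rw [h4, symm_apply, eval_cons]
  exact ht

theorem main (n : ℕ) : ∀ P : MvPolynomial (Fin n) ℂ, P ≠ 0 →
    Integrable (lg P) (nun n) ∧ ∀ᵐ t ∂nun n, eval (pt t) P ≠ 0 := by
  induction n with
  | zero =>
    intro P hP
    constructor
    · have h : lg P = fun _ => lg P 0 := by
        funext t
        rw [Subsingleton.elim t 0]
      rw [h]
      exact integrable_const _
    · refine Filter.Eventually.of_forall fun t h => hP ?_
      rw [P.eq_C_of_isEmpty] at h ⊢
      rw [eval_C] at h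
      rw [h, C_0]
  | succ n ih =>
    intro P hP
    set Q := finSuccEquiv ℂ n P with hQ
    have hQ0 : Q ≠ 0 := by
      rw [hQ]
      simpa using hP
    obtain ⟨hi, hn⟩ := ih Q.leadingCoeff (Polynomial.leadingCoeff_ne_zero.2 hQ0)
    have hsp : ∀ᵐ t ∂nun n, sp P t ≠ 0 := by
      filter_upwards [hn] with t ht
      exact sp_ne P t Q.natDegree ht
    refine ⟨?_, ae_ne_succ P hsp⟩
    obtain ⟨K, hK0, hK⟩ := exists_bound P
    rw [lg_eq]
    rw [(mp n).integrable_comp_emb (MeasurableEquiv.measurableEmbedding _)]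
    rw [integrable_prod_iff' (measurable_F P).aestronglyMeasurable]
    refine ⟨Filter.Eventually.of_forall fun t => uni_integrable (sp P t), ?_⟩
    have hFK : ∀ s t, F P (s, t) ≤ K := by
      intro s t
      rw [F_eq]
      exact hK _
    have hb : Integrable (fun t => 2 * K + |lg Q.leadingCoeff t|) (nun n) :=
      (integrable_const _).add hi.abs
    refine hb.mono' (measurable_F P).norm.stronglyMeasurable.integral_prod_left'.aestronglyMeasurable
      ?_
    filter_upwards [hn] with t ht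
    have h1 : ∀ s, ‖F P (s, t)‖ ≤ 2 * K - F P (s, t) := by
      intro s
      rw [Real.norm_eq_abs]
      rcases abs_cases (F P (s, t)) with h | h
      · linarith [hFK s t]
      · linarith
    have h2 : ∫ s, ‖F P (s, t)‖ ∂nu ≤ ∫ s, (2 * K - F P (s, t)) ∂nu :=
      integral_mono (uni_integrable (sp P t)).norm
        ((integrable_const _).sub (uni_integrable (sp P t))) h1
    have h3 : ∫ s, (2 * K - F P (s, t)) ∂nu = 2 * K - (sp P t).logMahlerMeasure := by
      have h5 : Integrable (fun s => F P (s, t)) nu := uni_integrable (sp P t)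
      rw [integral_sub (integrable_const _) h5, integral_const]
      simp only [probReal_univ, smul_eq_mul, one_mul]
      congr 1
      exact uni_integral (sp P t)
    have h4 : lg Q.leadingCoeff t ≤ (sp P t).logMahlerMeasure := sp_lead P t ht
    rw [Real.norm_of_nonneg (integral_nonneg fun s => norm_nonneg _)]
    linarith [neg_abs_le (lg Q.leadingCoeff t)]

/-- the logarithmic Mahler measure -/
noncomputable def mu {n : ℕ} (P : MvPolynomial (Fin n) ℂ) : ℝ := ∫ t, lg P t ∂nun n

lemma integrable_F {n : ℕ} (P : MvPolynomial (Fin (n+1)) ℂ) (hP : P ≠ 0) :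
    Integrable (F P) (nu.prod (nun n)) := by
  rw [← (mp n).integrable_comp_emb (MeasurableEquiv.measurableEmbedding _), ← lg_eq]
  exact (main (n+1) P hP).1

lemma mu_succ {n : ℕ} (P : MvPolynomial (Fin (n+1)) ℂ) (hP : P ≠ 0) :
    mu P = ∫ t, (sp P t).logMahlerMeasure ∂nun n ∧
      Integrable (fun t => (sp P t).logMahlerMeasure) (nun n) := by
  have h : ∀ t, ∫ s, F P (s, t) ∂nu = (sp P t).logMahlerMeasure :=
    fun t => uni_integral (sp P t)
  have hF := integrable_F P hP
  constructor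
  · have h1 : mu P = ∫ x, F P x ∂(nu.prod (nun n)) := by
      rw [mu, lg_eq]
      exact (mp n).integral_comp (MeasurableEquiv.measurableEmbedding _) (F P)
    rw [h1, integral_prod_symm _ hF]
    exact integral_congr_ae (Filter.Eventually.of_forall h)
  · exact hF.integral_prod_right.congr (Filter.Eventually.of_forall h)

lemma mu_mul {n : ℕ} (P Q : MvPolynomial (Fin n) ℂ) (hP : P ≠ 0) (hQ : Q ≠ 0) :
    mu (P * Q) = mu P + mu Q := by
  unfold mu
  rw [← integral_add (main n P hP).1 (main n Q hQ).1]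
  apply integral_congr_ae
  filter_upwards [(main n P hP).2, (main n Q hQ).2] with t h1 h2
  simp only [lg, map_mul, norm_mul]
  exact Real.log_mul (norm_ne_zero_iff.2 h1) (norm_ne_zero_iff.2 h2)

lemma mu_le {n : ℕ} (P : MvPolynomial (Fin n) ℂ) (hP : P ≠ 0) (B : ℝ)
    (h : ∀ z : Fin n → ℂ, (∀ i, ‖z i‖ ≤ 1) → ‖eval z P‖ ≤ B) : mu P ≤ log B := by
  have h1 : ∫ t, lg P t ∂nun n ≤ ∫ _t, log B ∂nun n := by
    apply integral_mono_ae (main n P hP).1 (integrable_const _)
    filter_upwards [(main n P hP).2] with t ht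
    exact Real.log_le_log (norm_pos_iff.2 ht) (h _ fun i => (norm_pt t i).le)
  simpa [mu] using h1

lemma mu_C {n : ℕ} (c : ℂ) : mu (C c : MvPolynomial (Fin n) ℂ) = log ‖c‖ := by
  simp [mu, lg]

lemma mu_coeff_le {n : ℕ} (P : MvPolynomial (Fin (n+1)) ℂ) (k : ℕ)
    (hk : (finSuccEquiv ℂ n P).coeff k ≠ 0) :
    mu ((finSuccEquiv ℂ n P).coeff k) ≤ mu P + P.totalDegree * log 2 := by
  have hP : P ≠ 0 := by
    rintro rfl
    simp at hk
  obtain ⟨h1, h2⟩ := mu_succ P hP
  have h3 := main n _ hk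
  have h4 : mu P + P.totalDegree * log 2 =
      ∫ t, ((sp P t).logMahlerMeasure + P.totalDegree * log 2) ∂nun n := by
    rw [integral_add h2 (integrable_const _), ← h1]
    simp
  rw [h4]
  apply integral_mono_ae h3.1 (h2.add (integrable_const _))
  filter_upwards [h3.2] with t ht
  have hs : sp P t ≠ 0 := sp_ne P t k ht
  have h5 := Polynomial.norm_coeff_le_choose_mul_mahlerMeasure k (sp P t)
  have h6 : (sp P t).coeff k = eval (pt t) ((finSuccEquiv ℂ n P).coeff k) := by
    simp [sp, Polynomial.coeff_map]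
  have h7 : (sp P t).natDegree ≤ P.totalDegree := by
    refine (Polynomial.natDegree_map_le).trans ?_
    rw [natDegree_finSuccEquiv]
    exact degreeOf_le_totalDegree P 0
  have h8 : (((sp P t).natDegree.choose k : ℕ) : ℝ) ≤ 2 ^ P.totalDegree := by
    have := Nat.choose_le_two_pow (sp P t).natDegree k
    calc (((sp P t).natDegree.choose k : ℕ) : ℝ) ≤ ((2 ^ (sp P t).natDegree : ℕ) : ℝ) := by
          exact_mod_cast this
      _ = 2 ^ (sp P t).natDegree := by push_cast; ring
      _ ≤ 2 ^ P.totalDegree := pow_le_pow_right₀ (by norm_num) h7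
  rw [h6] at h5
  have h9 : 0 < (sp P t).mahlerMeasure := Polynomial.mahlerMeasure_pos_of_ne_zero hs
  have h10 : ‖eval (pt t) ((finSuccEquiv ℂ n P).coeff k)‖ ≤ 2 ^ P.totalDegree * (sp P t).mahlerMeasure :=
    h5.trans (mul_le_mul_of_nonneg_right h8 h9.le)
  have h11 := Real.log_le_log (norm_pos_iff.2 ht) h10
  rw [Real.log_mul (by positivity) h9.ne', Real.log_pow,
    ← Polynomial.logMahlerMeasure_eq_log_MahlerMeasure] at h11
  simp only [lg, Pi.add_apply]
  linarith

lemma mu_lead_le {n : ℕ} (P : MvPolynomial (Fin (n+1)) ℂ) (hP : P ≠ 0) :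
    mu (finSuccEquiv ℂ n P).leadingCoeff ≤ mu P := by
  have hQ0 : finSuccEquiv ℂ n P ≠ 0 := by simpa using hP
  have hk : (finSuccEquiv ℂ n P).leadingCoeff ≠ 0 := Polynomial.leadingCoeff_ne_zero.2 hQ0
  obtain ⟨h1, h2⟩ := mu_succ P hP
  have h3 := main n _ hk
  rw [h1]
  apply integral_mono_ae h3.1 h2
  filter_upwards [h3.2] with t ht
  exact sp_lead P t ht

theorem coeff_le (n : ℕ) : ∀ P : MvPolynomial (Fin n) ℂ, ∀ α ∈ P.support,
    log ‖P.coeff α‖ ≤ mu P + n * P.totalDegree * log 2 := by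
  induction n with
  | zero =>
    intro P α hα
    have h : P = C (P.coeff α) := by
      rw [Subsingleton.elim α 0]
      exact P.eq_C_of_isEmpty
    rw [h, mu_C]
    simp [Subsingleton.elim α 0]
  | succ n ih =>
    intro P α hα
    have h1 := finSuccEquiv_coeff_coeff α.tail P (α 0)
    rw [Finsupp.cons_tail] at h1
    have h2 : α.tail ∈ ((finSuccEquiv ℂ n P).coeff (α 0)).support := by
      rw [mem_support_iff, h1]
      exact mem_support_iff.1 hα
    have h3 : (finSuccEquiv ℂ n P).coeff (α 0) ≠ 0 := by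
      intro h
      rw [h] at h2
      simp at h2
    have h4 := ih _ _ h2
    rw [h1] at h4
    have h5 := mu_coeff_le P (α 0) h3
    have h6 := totalDegree_coeff_finSuccEquiv_add_le P (α 0) h3
    have h7 : (((finSuccEquiv ℂ n P).coeff (α 0)).totalDegree : ℝ) ≤ P.totalDegree := by
      exact_mod_cast (Nat.le_of_add_right_le h6)
    have h8 : (n : ℝ) * ((finSuccEquiv ℂ n P).coeff (α 0)).totalDegree * log 2 ≤
        n * P.totalDegree * log 2 := by
      have := Real.log_nonneg (x := 2) (by norm_num)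
      gcongr
    push_cast
    linarith

theorem exists_coeff_le (n : ℕ) : ∀ P : MvPolynomial (Fin n) ℂ, P ≠ 0 →
    ∃ α ∈ P.support, log ‖P.coeff α‖ ≤ mu P := by
  induction n with
  | zero =>
    intro P hP
    have h := P.eq_C_of_isEmpty
    refine ⟨0, ?_, ?_⟩
    · rw [mem_support_iff]
      intro h0
      rw [h0, C_0] at h
      exact hP h
    · conv_rhs => rw [h]
      rw [mu_C]
  | succ n ih =>
    intro P hP
    have hQ0 : finSuccEquiv ℂ n P ≠ 0 := by simpa using hP
    obtain ⟨β, hβ, hle⟩ := ih _ (Polynomial.leadingCoeff_ne_zero.2 hQ0)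
    refine ⟨β.cons (finSuccEquiv ℂ n P).natDegree, ?_, ?_⟩
    · exact mem_support_coeff_finSuccEquiv.1 hβ
    · rw [← finSuccEquiv_coeff_coeff]
      exact hle.trans (mu_lead_le P hP)

/-- **LR-MAHLER** -/
theorem mahler : SMahler := by
  intro ι _
  let e := Fintype.equivFin ι
  have he : Function.Injective e := e.injective
  have hre : Function.Injective (rename (R := ℂ) e) := rename_injective _ he
  refine ⟨fun P => mu (rename e P), ?_, ?_, ?_, ?_, ?_⟩
  · intro P Q hP hQ
    show mu (rename e (P * Q)) = mu (rename e P) + mu (rename e Q)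
    rw [map_mul]
    exact mu_mul _ _ ((map_ne_zero_iff _ hre).2 hP) ((map_ne_zero_iff _ hre).2 hQ)
  · intro P hP B _ h
    refine mu_le _ ((map_ne_zero_iff _ hre).2 hP) B fun z hz => ?_
    rw [eval_rename]
    exact h _ fun i => hz _
  · intro P α hα
    have h1 : Finsupp.mapDomain e α ∈ (rename e P).support := by
      rw [mem_support_iff, coeff_rename_mapDomain _ he]
      exact mem_support_iff.1 hα
    have h2 := coeff_le _ _ _ h1
    rw [coeff_rename_mapDomain _ he] at h2
    have h3 : (rename e P).totalDegree = P.totalDegree := by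
      exact totalDegree_renameEquiv e P
    rw [h3] at h2
    exact h2
  · intro P hP
    obtain ⟨β, hβ, h⟩ := exists_coeff_le _ (rename e P) ((map_ne_zero_iff _ hre).2 hP)
    obtain ⟨α, rfl, hα⟩ := coeff_rename_ne_zero e P β (mem_support_iff.1 hβ)
    refine ⟨α, mem_support_iff.2 hα, ?_⟩
    rwa [coeff_rename_mapDomain _ he] at h
  · intro c hc
    show mu (rename e (C c)) = _
    rw [rename_C, mu_C]

end Pool.Agent.Helper75.LRMahler
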